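import Pool.Agent.H17.BO.TargetsD

/-!
T_CSU: all points of a conic are in the image of a parametrisation.
-/

set_option autoImplicit false

namespace Pool.Agent.H20.BO

open Pool.Agent.H17.BO

section

variable {K : Type} [Field K]

private theorem bil_add_left (q : Matrix (Fin 3) (Fin 3) K) (u v w : Fin 3 → K) :
    bil q (u + v) w = bil q u w + bil q v w := by
  unfold bil
  simp only [Fin.sum_univ_three, Pi.add_apply]
  ring

private theorem bil_add_right (q : Matrix (Fin 3) (Fin 3) K) (u v w : Fin 3 → K) :
    bil q w (u + v) = bil q w u + bil q w v := by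
  unfold bil
  simp only [Fin.sum_univ_three, Pi.add_apply]
  ring

private theorem bil_smul_left (q : Matrix (Fin 3) (Fin 3) K) (a : K) (u w : Fin 3 → K) :
    bil q (a • u) w = a * bil q u w := by
  unfold bil
  simp only [Fin.sum_univ_three, Pi.smul_apply, smul_eq_mul]
  ring

private theorem bil_smul_right (q : Matrix (Fin 3) (Fin 3) K) (a : K) (u w : Fin 3 → K) :
    bil q w (a • u) = a * bil q w u := by
  unfold bil
  simp only [Fin.sum_univ_three, Pi.smul_apply, smul_eq_mul]
  ring

private theorem bil_comm (q : Matrix (Fin 3) (Fin 3) K) (hq : q.IsSymm) (u v : Fin 3 → K) :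
    bil q u v = bil q v u := by
  unfold bil
  rw [Finset.sum_comm]
  refine Finset.sum_congr rfl fun a _ => Finset.sum_congr rfl fun b _ => ?_
  rw [hq.apply]
  ring

private theorem expand (A B C : Fin 3 → K) (h : LinearIndependent K ![A, B, C]) (y : Fin 3 → K) :
    ∃ α β γ : K, y = α • A + β • B + γ • C := by
  have h1 : Submodule.span K (Set.range ![A, B, C]) = ⊤ :=
    h.span_eq_top_of_card_eq_finrank' (by simp)
  have h2 : y ∈ Submodule.span K (Set.range ![A, B, C]) := by
    rw [h1]
    trivial
  obtain ⟨c, hc⟩ := (Submodule.mem_span_range_iff_exists_fun K).1 h2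
  refine ⟨c 0, c 1, c 2, ?_⟩
  rw [← hc, Fin.sum_univ_three]
  rfl

end

/-- CSU -/
theorem pf_CSU : T_CSU := by
  intro K _ _ q hsym hdet A B C hABC y hy hyy
  obtain ⟨hind, haa, hab, hbb, hbc, hcc⟩ := hABC
  have hBne : B ≠ 0 := by
    have := hind.ne_zero 1
    simpa using this
  -- the value at `B`
  have hBB : bil q B B ≠ 0 := by
    intro h0
    have hac : bil q A C = 0 := by
      rw [h0, zero_add] at hbb
      exact (mul_eq_zero.1 hbb).resolve_left two_ne_zero
    have hall : ∀ u : Fin 3 → K, bil q u B = 0 := by
      intro u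
      obtain ⟨α, β, γ, hu⟩ := expand A B C hind u
      rw [hu, bil_add_left, bil_add_left, bil_smul_left, bil_smul_left, bil_smul_left, hab, h0,
        bil_comm q hsym C B, hbc]
      ring
    have hmul : q.mulVec B = 0 := by
      funext a
      have h1 := hall (Pi.single a 1)
      unfold bil at h1
      rw [Finset.sum_eq_single a] at h1
      · simp only [Pi.single_eq_same, mul_one] at h1
        exact h1
      · intro b _ hb
        refine Finset.sum_eq_zero fun c _ => ?_
        rw [Pi.single_eq_of_ne hb]
        ring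
      · intro h
        exact absurd (Finset.mem_univ a) h
    exact hBne (Matrix.eq_zero_of_mulVec_eq_zero hdet hmul)
  obtain ⟨α, β, γ, hyE⟩ := expand A B C hind y
  have hrel : β ^ 2 = α * γ := by
    have h1 : bil q y y = bil q B B * (β ^ 2 - α * γ) := by
      have e1 : 2 * bil q A C = - bil q B B := by linear_combination hbb
      rw [hyE]
      simp only [bil_add_left, bil_add_right, bil_smul_left, bil_smul_right]
      rw [haa, hab, hbc, hcc, bil_comm q hsym B A, hab, bil_comm q hsym C B, hbc,
        bil_comm q hsym C A]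
      linear_combination (α * γ) * e1
    rw [hyy] at h1
    have h2 := (mul_eq_zero.1 h1.symm).resolve_left hBB
    linear_combination h2
  have hyi : ∀ i, y i = α * A i + β * B i + γ * C i := by
    intro i
    rw [hyE]
    rfl
  by_cases hα : α = 0
  · have hβ : β = 0 := by
      rw [hα, zero_mul] at hrel
      exact pow_eq_zero_iff two_ne_zero |>.1 hrel
    have hγ : γ ≠ 0 := by
      intro hγ
      refine hy (funext fun i => ?_)
      rw [hyi i, hα, hβ, hγ]
      simp
    refine ⟨γ, 0, 1, hγ, Or.inr one_ne_zero, fun i => ?_⟩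
    rw [hyi i, hα, hβ]
    ring
  · refine ⟨α⁻¹, α, β, inv_ne_zero hα, Or.inl hα, fun i => ?_⟩
    rw [hyi i, hrel]
    field_simp

end Pool.Agent.H20.BO
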