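import Pool.Agent.H17.BO.TargetsX
import Pool.Agent.H97.VG.CD
import Pool.Agent.H97.VG.PD

/-!
T_DR2: a derivation applied to the restriction to a conic.
-/

set_option autoImplicit false

namespace Pool.Agent.H20.BO

open MvPolynomial Pool.Agent.H17.VG Pool.Agent.H17.BO Pool.Agent.H97.VG

section

variable {R K : Type} [Field R] [Field K] [Algebra R K] {n : ℕ}

private theorem dir_add (w : Fin (n + 1) → K) (p q : MvPolynomial (Fin (n + 1)) K) :
    dir w (p + q) = dir w p + dir w q := by
  unfold dir
  rw [← Finset.sum_add_distrib]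
  exact Finset.sum_congr rfl fun i _ => by rw [map_add, mul_add]

private theorem dir_C (w : Fin (n + 1) → K) (a : K) :
    dir w (C a : MvPolynomial (Fin (n + 1)) K) = 0 := by
  unfold dir
  exact Finset.sum_eq_zero fun i _ => by rw [pderiv_C, mul_zero]

private theorem dir_mul_X (w : Fin (n + 1) → K) (p : MvPolynomial (Fin (n + 1)) K)
    (i : Fin (n + 1)) : dir w (p * X i) = dir w p * X i + p * C (w i) := by
  classical
  unfold dir
  rw [Finset.sum_mul]
  have h1 : p * C (w i) = ∑ j, C (w j) * (p * pderiv j (X i : MvPolynomial (Fin (n + 1)) K)) := by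
    rw [Finset.sum_eq_single i]
    · rw [pderiv_X_self, mul_one, mul_comm]
    · intro j _ hj
      rw [pderiv_X_of_ne (Ne.symm hj), mul_zero, mul_zero]
    · intro h
      exact absurd (Finset.mem_univ i) h
  rw [h1, ← Finset.sum_add_distrib]
  refine Finset.sum_congr rfl fun j _ => ?_
  rw [pderiv_mul]
  ring

private theorem res2_add (x b c : Fin (n + 1) → K) (p q : MvPolynomial (Fin (n + 1)) K) :
    res2 x b c (p + q) = res2 x b c p + res2 x b c q := by
  unfold res2
  rw [map_add]

private theorem res2_mul (x b c : Fin (n + 1) → K) (p q : MvPolynomial (Fin (n + 1)) K) :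
    res2 x b c (p * q) = res2 x b c p * res2 x b c q := by
  unfold res2
  rw [map_mul]

private theorem res2_C (x b c : Fin (n + 1) → K) (a : K) :
    res2 x b c (C a) = Polynomial.C a := by
  unfold res2
  rw [aeval_C]
  rfl

private theorem res2_zero (x b c : Fin (n + 1) → K) : res2 x b c 0 = 0 := by
  unfold res2
  rw [map_zero]

private theorem res2_X (x b c : Fin (n + 1) → K) (i : Fin (n + 1)) :
    res2 x b c (X i) = Polynomial.C (x i) + Polynomial.C (b i) * Polynomial.X +
      Polynomial.C (c i) * Polynomial.X ^ 2 := by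
  unfold res2
  rw [aeval_X]

private theorem pD_r (θ : Derivation R K K) (u v w : K) :
    pD θ (Polynomial.C u + Polynomial.C v * Polynomial.X + Polynomial.C w * Polynomial.X ^ 2) =
      Polynomial.C (θ u) + Polynomial.C (θ v) * Polynomial.X +
        Polynomial.C (θ w) * Polynomial.X ^ 2 := by
  rw [pow_two, pD_add, pD_add, pD_C, pD_mul, pD_C, pD_X, pD_mul, pD_C, pD_mul, pD_X]
  ring

end

/-- DR2 -/
theorem pf_DR2 : T_DR2 := by
  intro R K _ _ _ n θ x b c G
  induction G using MvPolynomial.induction_on with
  | C a =>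
    rw [res2_C, pD_C, cD_C, res2_C, dir_C, dir_C, dir_C, res2_zero]
    ring
  | add p q hp hq =>
    rw [res2_add, pD_add, hp, hq, cD_add, dir_add, dir_add, dir_add, res2_add, res2_add, res2_add,
      res2_add]
    ring
  | mul_X p i hp =>
    rw [res2_mul, pD_mul, hp, cD_mul, cD_X, mul_zero, add_zero, dir_mul_X, dir_mul_X, dir_mul_X,
      res2_mul, res2_add, res2_mul, res2_mul, res2_add, res2_mul, res2_mul, res2_add, res2_mul,
      res2_mul, res2_C, res2_C, res2_C, res2_X, pD_r]
    ring

end Pool.Agent.H20.BO
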