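import Pool.Agent.H17.BO.TargetsC

/-!
T_DTT: determinants of order three and two.
-/

set_option autoImplicit false

namespace Pool.Agent.H20.BO

open Pool.Agent.H17.BO

/-- DTT -/
theorem pf_DTT : T_DTT := by
  intro L _ x hx
  have h : x 0 ≠ 0 ∨ x 1 ≠ 0 ∨ x 2 ≠ 0 := by
    by_contra hc
    push Not at hc
    refine hx (funext fun i => ?_)
    fin_cases i
    · exact hc.1
    · exact hc.2.1
    · exact hc.2.2
  rcases h with h | h | h
  · refine ⟨![![-x 1, x 0, 0], ![-x 2, 0, x 0]], x 0, h, ?_, ?_, ?_⟩
    · rw [LinearIndependent.pair_iff]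
      intro s t hst
      have h1 := congrFun hst 1
      have h2 := congrFun hst 2
      simp at h1 h2
      exact ⟨h1.resolve_right h, h2.resolve_right h⟩
    · intro i
      fin_cases i <;> simp [Fin.sum_univ_three] <;> ring
    · intro Y
      rw [Matrix.det_fin_two, Matrix.det_fin_three]
      simp [Fin.sum_univ_three]
      ring
  · refine ⟨![![0, -x 2, x 1], ![x 1, -x 0, 0]], x 1, h, ?_, ?_, ?_⟩
    · rw [LinearIndependent.pair_iff]
      intro s t hst
      have h1 := congrFun hst 0
      have h2 := congrFun hst 2
      simp at h1 h2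
      exact ⟨h2.resolve_right h, h1.resolve_right h⟩
    · intro i
      fin_cases i <;> simp [Fin.sum_univ_three] <;> ring
    · intro Y
      rw [Matrix.det_fin_two, Matrix.det_fin_three]
      simp [Fin.sum_univ_three]
      ring
  · refine ⟨![![x 2, 0, -x 0], ![0, x 2, -x 1]], x 2, h, ?_, ?_, ?_⟩
    · rw [LinearIndependent.pair_iff]
      intro s t hst
      have h1 := congrFun hst 0
      have h2 := congrFun hst 1
      simp at h1 h2
      exact ⟨h1.resolve_right h, h2.resolve_right h⟩
    · intro i
      fin_cases i <;> simp [Fin.sum_univ_three] <;> ring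
    · intro Y
      rw [Matrix.det_fin_two, Matrix.det_fin_three]
      simp [Fin.sum_univ_three]
      ring

end Pool.Agent.H20.BO
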